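import Pool.Agent.H.MP_d2b9e5.C

set_option autoImplicit false
open Set Filter Topology Ordinal BoundedContinuousFunction

namespace Pool.Agent.H.MP_28dc43

open Pool.Agent.H.MP_d2b9e5 (Om Om1 Om2 clo)

noncomputable abbrev o2 : Ordinal.{0} := (Cardinal.aleph.{0} 2).ord

theorem reg : (Cardinal.aleph.{0} 2).IsRegular := by
  have := Cardinal.isRegular_aleph_add_one (1 : Ordinal.{0})
  rwa [one_add_one_eq_two] at this

theorem a12 : Cardinal.aleph.{0} 1 < Cardinal.aleph 2 := Cardinal.aleph_lt_aleph.2 one_lt_two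

theorem supN {f : ℕ → Ordinal.{0}} (h : ∀ n, f n < o2) : ⨆ n, f n < o2 :=
  Cardinal.iSup_lt_ord_of_isRegular reg (by
    rw [Cardinal.mk_nat]; exact Cardinal.aleph0_lt_aleph_one.trans a12) h

theorem supW {f : Om → Ordinal.{0}} (h : ∀ n, f n < o2) : ⨆ n, f n < o2 :=
  Cardinal.iSup_lt_ord_of_isRegular reg (by rw [Cardinal.mk_ord_toType]; exact a12) h

theorem lim2 {a : Ordinal.{0}} (h : a < o2) : a + 1 < o2 :=
  (Cardinal.isSuccLimit_ord reg.aleph0_le).add_one_lt h

theorem pos2 : 0 < o2 := (Cardinal.isSuccLimit_ord reg.aleph0_le).pos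

theorem inj {b : Ordinal.{0}} (h : b < o2) : ∃ r : Ordinal.{0} → Om, InjOn r (Iio b) := by
  classical
  have h1 : b.card ≤ Cardinal.aleph 1 := by
    rw [← Order.lt_succ_iff, Cardinal.succ_aleph, one_add_one_eq_two]
    exact Cardinal.lt_ord.1 h
  obtain ⟨e⟩ : Nonempty (Iio b ↪ Om) := Cardinal.lift_mk_le'.1 (by
    rw [Cardinal.mk_Iio_ordinal, Cardinal.mk_ord_toType, Cardinal.lift_lift, Cardinal.lift_le]
    exact h1)
  have : Nonempty Om := by
    by_contra hn
    rw [not_nonempty_iff] at hn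
    exact Om1 countable_univ
  refine ⟨fun a => if ha : a < b then e ⟨a, ha⟩ else Classical.arbitrary _, fun x hx y hy hxy => ?_⟩
  simp only [dif_pos (show x < b from hx), dif_pos (show y < b from hy)] at hxy
  exact congrArg Subtype.val (e.injective hxy)

theorem bdd {s : Set Om} (hs : s.Countable) : ∃ b, ∀ a ∈ s, a < b := by
  by_contra hn
  push Not at hn
  refine Om1 ((hs.biUnion fun a _ => (Om2 a).insert a).mono fun b _ => ?_)
  obtain ⟨a, ha, hb⟩ := hn b
  exact mem_iUnion₂.2 ⟨a, ha, hb.eq_or_lt⟩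

noncomputable def ch (a : Ordinal.{0}) : Iic o2 →ᵇ ℝ :=
  BoundedContinuousFunction.indicator _ ((clo a).preimage continuous_subtype_val)

theorem che (a : Ordinal.{0}) (b : Iic o2) : ch a b = if b.1 ≤ a then 1 else 0 := by
  classical
  exact (Set.indicator_apply _ _ _).trans (if_congr Iff.rfl rfl rfl)

theorem bv (ν : (Iic o2 →ᵇ ℝ) →L[ℝ] ℝ) (a b : ℕ → Ordinal.{0}) (h1 : ∀ k, a k ≤ b k)
    (h2 : ∀ k, b k ≤ a (k + 1)) (s : ℕ → ℝ) (hs : ∀ k, |s k| ≤ 1) (n : ℕ) :
    |∑ k ∈ Finset.range n, s k * (ν (ch (b k)) - ν (ch (a k)))| ≤ ‖ν‖ := by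
  have m : ∀ {x y : Ordinal.{0}}, x ≤ y → ∀ t, ch x t ≤ ch y t := fun h t => by
    rw [che, che]
    split_ifs with e1 e2
    · exact le_rfl
    · exact absurd (e1.trans h) e2
    all_goals norm_num
  have e : ∑ k ∈ Finset.range n, s k * (ν (ch (b k)) - ν (ch (a k))) =
      ν (∑ k ∈ Finset.range n, s k • (ch (b k) - ch (a k))) := by simp [map_sum]
  rw [e]
  refine (ν.le_opNorm _).trans (mul_le_of_le_one_right (norm_nonneg _)
    ((BoundedContinuousFunction.norm_le zero_le_one).2 fun t => ?_))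
  rw [BoundedContinuousFunction.sum_apply]
  refine (norm_sum_le _ _).trans ((Finset.sum_le_sum
    (g := fun k => ch (a (k + 1)) t - ch (a k) t) fun k _ => ?_).trans ?_)
  · change |s k * (ch (b k) t - ch (a k) t)| ≤ _
    rw [abs_mul, abs_of_nonneg (sub_nonneg.2 (m (h1 k) t))]
    nlinarith [hs k, m (h1 k) t, m (h2 k) t, abs_nonneg (s k)]
  · rw [Finset.sum_range_sub fun k => ch (a k) t, che, che]
    split_ifs <;> norm_num

theorem stab (ν : (Iic o2 →ᵇ ℝ) →L[ℝ] ℝ) :
    ∃ a < o2, ∀ b, a ≤ b → b < o2 → ν (ch b) = ν (ch a) := by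
  have h1 : ∀ n : ℕ, ∃ a < o2, ∀ b c, a ≤ b → b ≤ c → c < o2 →
      |ν (ch c) - ν (ch b)| ≤ 1 / ((n : ℝ) + 1) := by
    intro n
    by_contra hn
    push Not at hn
    choose! b c h1 h2 h3 h4 using hn
    let u : ℕ → Ordinal.{0} := fun k => c^[k] 0
    have u1 : ∀ k, u (k + 1) = c (u k) := fun k => Function.iterate_succ_apply' _ _ _
    have u2 : ∀ k, u k < o2 := fun k => by
      induction k with
      | zero => exact pos2
      | succ k ih => rw [u1]; exact h3 _ ih
    obtain ⟨N, hN⟩ := exists_nat_gt (‖ν‖ * (n + 1))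
    have := bv ν (fun k => b (u k)) (fun k => c (u k)) (fun k => h2 _ (u2 k))
      (fun k => u1 k ▸ h1 _ (u2 (k + 1)))
      (fun k => SignType.sign (ν (ch (c (u k))) - ν (ch (b (u k)))))
      (fun k => by
        generalize SignType.sign (ν (ch (c (u k))) - ν (ch (b (u k)))) = z
        cases z <;> simp) N
    simp only [sign_mul_self] at this
    have h5 := Finset.card_nsmul_le_sum (Finset.range N) _ _ fun k _ => (h4 _ (u2 k)).le
    rw [Finset.card_range, _root_.nsmul_eq_mul, mul_one_div, div_le_iff₀ (by positivity)] at h5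
    have h6 := mul_le_mul_of_nonneg_right ((le_abs_self _).trans this)
      (show (0 : ℝ) ≤ n + 1 by positivity)
    linarith
  choose a h2 h3 using h1
  refine ⟨⨆ n, a n, supN h2, fun b hb hb' => ?_⟩
  by_contra hn
  obtain ⟨n, hn'⟩ := exists_nat_one_div_lt (abs_pos.2 (sub_ne_zero.2 hn))
  exact absurd (h3 n _ b (Ordinal.le_iSup a n) hb hb') (not_le.2 hn')

variable {X : Type} [NormedAddCommGroup X] [NormedSpace ℝ X]

theorem den (S : Set X) : ∃ D : Set X, D.Countable ∧
    (S.Countable → (Submodule.span ℝ S : Set X) ⊆ closure D) := by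
  by_cases h : S.Countable
  · obtain ⟨D, h1, h2⟩ := h.isSeparable.span (R := ℝ)
    exact ⟨D, h1, fun _ => h2⟩
  · exact ⟨∅, countable_empty, fun h' => absurd h' h⟩

theorem agree {Y : Type} [NormedAddCommGroup Y] [NormedSpace ℝ Y] {f g : X →L[ℝ] Y} {C : Set X}
    (h : ∀ m ∈ C, f m = g m) {x : X} (hx : x ∈ closure (Submodule.span ℝ C : Set X)) :
    f x = g x :=
  closure_minimal (t := {x | f x = g x}) (fun _ hy => LinearMap.eqOn_span' (f := f.toLinearMap)
    (g := g.toLinearMap) h hy) (isClosed_eq f.continuous g.continuous) hx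

structure Gd (M : Set X) (c : ℝ) (S : Set X) (P : X →L[ℝ] X) : Prop where
  g0 : S.Countable
  g1 : ∀ m ∈ M, m ∈ S → P m = m
  g2 : ∀ m ∈ M, m ∉ S → P m = 0
  g3 : ∀ x, ‖P x‖ ≤ c⁻¹ * ‖x‖

theorem hull [CompleteSpace X] {M : Set X} (hM : Dense (Submodule.span ℝ M : Set X)) {c : ℝ}
    (hc : 0 < c) (hN : ∀ x : X, ∃ f : X →L[ℝ] ℝ,
      Set.Countable {m ∈ M | f m ≠ 0} ∧ ‖f‖ ≤ 1 ∧ c * ‖x‖ ≤ |f x|) (C : Set X) :
    ∃ S P, C.Countable → C ⊆ S ∧ Gd M c S P := by
  classical
  by_cases hC : C.Countable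
  swap
  · exact ⟨∅, 0, fun h => absurd h hC⟩
  choose f f1 f2 f3 using hN
  choose D D1 D2 using den (X := X)
  let nx : Set X → Set X := fun S => S ∪ ⋃ d ∈ D S, {m ∈ M | f d m ≠ 0}
  let T : ℕ → Set X := fun n => nx^[n] C
  have t1 : ∀ n, T (n + 1) = nx (T n) := fun n => Function.iterate_succ_apply' _ _ _
  have t2 : ∀ n, (T n).Countable := fun n => by
    induction n with
    | zero => exact hC
    | succ n ih => rw [t1]; exact ih.union ((D1 _).biUnion fun d _ => f1 d)
  have t3 : Monotone T := monotone_nat_of_le_succ fun n => by rw [t1]; exact subset_union_left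
  let S := ⋃ n, T n
  let l : (M →₀ ℝ) →ₗ[ℝ] X := Finsupp.linearCombination ℝ Subtype.val
  let p : (M →₀ ℝ) →ₗ[ℝ] X := Finsupp.linearCombination ℝ fun m => if m.1 ∈ S then m.1 else 0
  have hl : DenseRange l := by
    rw [DenseRange, ← LinearMap.coe_range, Finsupp.range_linearCombination, Subtype.range_coe]
    exact hM
  have hp : ∀ a, ‖p a‖ ≤ c⁻¹ * ‖l a‖ := by
    intro a
    have h1 : p a ∈ Submodule.span ℝ S := by
      refine Submodule.sum_mem _ fun m _ => Submodule.smul_mem _ _ ?_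
      dsimp only
      split_ifs with h
      · exact Submodule.subset_span h
      · exact zero_mem _
    rw [Submodule.span_iUnion, Submodule.mem_iSup_of_directed _
      (Monotone.directed_le fun n m h => Submodule.span_mono (t3 h))] at h1
    obtain ⟨n, hn⟩ := h1
    have h2 : closure (D (T n)) ⊆ {d | c * ‖d‖ ≤ ‖l a‖ + ‖d - p a‖} := by
      refine closure_minimal (fun d hd => ?_) (isClosed_le (by fun_prop) (by fun_prop))
      have e : f d (p a) = f d (l a) := by
        simp only [p, l, Finsupp.linearCombination_apply, Finsupp.sum, map_sum, map_smul]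
        refine Finset.sum_congr rfl fun m _ => ?_
        split_ifs with h
        · rfl
        · rw [map_zero]
          by_contra hne
          refine h (mem_iUnion.2 ⟨n + 1, ?_⟩)
          rw [t1]
          exact Or.inr (mem_iUnion₂.2 ⟨d, hd, m.2, fun h0 => hne (by rw [h0])⟩)
      have e1 := (f d).le_of_opNorm_le (f2 d) (l a)
      have e2 := (f d).le_of_opNorm_le (f2 d) (d - p a)
      rw [map_sub, e] at e2
      have e3 := f3 d
      have e4 := abs_sub_abs_le_abs_sub (f d d) (f d (l a))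
      rw [mem_ofPred_eq]
      simp only [Real.norm_eq_abs] at e1 e2
      linarith
    have h3 := h2 (D2 _ (t2 n) hn)
    rw [mem_ofPred_eq, _root_.sub_self, norm_zero, add_zero] at h3
    rwa [le_inv_mul_iff₀ hc]
  have he : ∀ m : M, p.extendOfNorm l m = if m.1 ∈ S then m.1 else 0 := fun m => by
    have := LinearMap.extendOfNorm_eq (f := p) hl ⟨_, hp⟩ (Finsupp.single m 1)
    simpa [p, l] using this
  exact ⟨S, p.extendOfNorm l, fun _ => ⟨subset_iUnion T 0, countable_iUnion t2,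
    fun m hm h => (he ⟨m, hm⟩).trans (if_pos h), fun m hm h => (he ⟨m, hm⟩).trans (if_neg h),
    LinearMap.norm_extendOfNorm_apply_le hl _ hp⟩⟩

theorem ev {M : Set X} (hM : Dense (Submodule.span ℝ M : Set X)) {c : ℝ}
    (T : (Iic o2 →ᵇ ℝ) →L[ℝ] X) (S : Set X) (P : X →L[ℝ] X) :
    ∃ s, Gd M c S P → s < o2 ∧ ∀ b, s ≤ b → b < o2 → P (T (ch b)) = P (T (ch s)) := by
  by_cases h : Gd M c S P
  swap
  · exact ⟨0, fun h' => absurd h' h⟩
  have hr : ∀ x, P x ∈ (Submodule.span ℝ S).topologicalClosure := by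
    intro x
    refine closure_minimal (t := P ⁻¹' (Submodule.span ℝ S).topologicalClosure) ?_
      ((Submodule.isClosed_topologicalClosure _).preimage P.continuous) (hM x)
    refine (Submodule.span_le (p := (Submodule.span ℝ S).topologicalClosure.comap
      P.toLinearMap)).2 fun m hm => ?_
    change P m ∈ (Submodule.span ℝ S).topologicalClosure
    by_cases hs : m ∈ S
    · rw [h.g1 m hm hs]
      exact Submodule.le_topologicalClosure _ (Submodule.subset_span hs)
    · rw [h.g2 m hm hs]; exact zero_mem _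
  obtain ⟨D, D1, D2⟩ := den S
  obtain ⟨e, he⟩ := (D1.insert 0).exists_eq_range (insert_nonempty _ _)
  choose g g1 g2 using fun d : X => exists_dual_vector'' ℝ d
  choose s s1 s2 using fun n => stab ((g (e n)).comp (P.comp T))
  refine ⟨⨆ n, s n, fun _ => ⟨supN s1, fun b hb hb' => ?_⟩⟩
  rw [← _root_.sub_eq_zero, ← map_sub]
  set w := P (T (ch b) - T (ch (⨆ n, s n))) with hw
  have h1 : closure D ⊆ {d | ‖d‖ ≤ ‖d - w‖} := by
    refine closure_minimal (fun d hd => ?_) (isClosed_le (by fun_prop) (by fun_prop))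
    obtain ⟨n, rfl⟩ : d ∈ range e := he ▸ mem_insert_of_mem _ hd
    have a1 := s2 n b ((Ordinal.le_iSup s n).trans hb) hb'
    have a2 := s2 n _ (Ordinal.le_iSup s n) (supN s1)
    simp only [ContinuousLinearMap.comp_apply] at a1 a2
    have a3 : g (e n) w = 0 := by rw [hw, map_sub, map_sub, a1, a2, _root_.sub_self]
    have a4 := (g (e n)).le_of_opNorm_le (g1 _) (e n - w)
    rw [map_sub, a3, _root_.sub_zero, g2, one_mul] at a4
    simpa using a4
  have h2 := h1 (a := w) (closure_minimal (D2 h.g0) isClosed_closure (hr _))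
  rwa [mem_ofPred_eq, _root_.sub_self, norm_zero, norm_le_zero_iff] at h2

theorem main [CompleteSpace X] {M : Set X} (hM : Dense (Submodule.span ℝ M : Set X)) {c : ℝ}
    (hc : 0 < c) (hN : ∀ x : X, ∃ f : X →L[ℝ] ℝ,
      Set.Countable {m ∈ M | f m ≠ 0} ∧ ‖f‖ ≤ 1 ∧ c * ‖x‖ ≤ |f x|)
    (T : (Iic o2 →ᵇ ℝ) →L[ℝ] X) {c' : ℝ} (hc' : 0 < c') (hT : ∀ g, c' * ‖g‖ ≤ ‖T g‖) : False := by
  classical
  choose hS hP hh using hull hM hc hN
  choose s hs using ev hM (c := c) T
  have sup : ∀ x : X, ∃ C ⊆ M, C.Countable ∧ x ∈ closure (Submodule.span ℝ C : Set X) := by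
    intro x
    obtain ⟨u, u1, u2⟩ := mem_closure_iff_seq_limit.1 (hM x)
    choose t t1 t2 using fun n => Submodule.mem_span_finite_of_mem_span (u1 n)
    exact ⟨⋃ n, t n, iUnion_subset t1, countable_iUnion fun n => (t n).countable_toSet,
      mem_closure_of_tendsto u2 (.of_forall fun n =>
        Submodule.span_mono (subset_iUnion (fun n => (t n : Set X)) n) (t2 n))⟩
  choose C C1 C2 C3 using sup
  let y : Set X → X := fun A => hP A (T (ch (s (hS A) (hP A))))
  obtain ⟨A0, A1, A2⟩ : ∃ A0 : Set X, A0.Countable ∧ ∀ A : Set X, A.Countable → hS A0 ⊆ A →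
      ‖y A - y A0‖ ≤ c * c' / 4 := by
    by_contra hn
    push Not at hn
    choose! nx n1 n2 n3 using hn
    let u : ℕ → Set X := fun k => nx^[k] ∅
    have u1 : ∀ k, u (k + 1) = nx (u k) := fun k => Function.iterate_succ_apply' _ _ _
    have u2 : ∀ k, (u k).Countable := fun k => by
      induction k with
      | zero => exact countable_empty
      | succ k ih => rw [u1]; exact n1 _ ih
    have u3 : Monotone fun k => hS (u k) := monotone_nat_of_le_succ fun k =>
      (u1 k ▸ n2 _ (u2 k)).trans (hh _ (u2 _)).1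
    have g := fun k => (hh _ (u2 k)).2
    let a := ⨆ k, s (hS (u k)) (hP (u k))
    have a1 : ∀ k, hP (u k) (T (ch a)) = y (u k) := fun k => (hs _ _ (g k)).2 a
      (Ordinal.le_iSup (fun k => s (hS (u k)) (hP (u k))) k) (supN fun k => (hs _ _ (g k)).1)
    obtain ⟨w, hw, hd⟩ := hM.exists_dist_lt (T (ch a)) (show 0 < c * (c * c' / 8) by positivity)
    obtain ⟨t, t1, t2⟩ := Submodule.mem_span_finite_of_mem_span hw
    obtain ⟨k, hk⟩ : ∃ k, ∀ m ∈ t, m ∈ hS (u (k + 1)) → m ∈ hS (u k) := by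
      refine ((eventually_all_finset t).2 fun m _ => ?_ : ∀ᶠ k in atTop, _).exists
      by_cases hm : ∃ k, m ∈ hS (u k)
      · obtain ⟨k, hk⟩ := hm
        exact (eventually_ge_atTop k).mono fun n hn _ => u3 hn hk
      · exact .of_forall fun n hn => absurd ⟨_, hn⟩ hm
    have e : hP (u (k + 1)) w = hP (u k) w := agree (fun m hm => by
      by_cases h : m ∈ hS (u (k + 1))
      · rw [(g _).g1 m (t1 hm) h, (g _).g1 m (t1 hm) (hk m hm h)]
      · rw [(g _).g2 m (t1 hm) h, (g _).g2 m (t1 hm) fun h' => h (u3 (Nat.le_succ k) h')])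
      (subset_closure t2)
    have b1 := n3 _ (u2 k)
    rw [← u1, ← a1, ← a1] at b1
    have b2 : hP (u (k + 1)) (T (ch a)) - hP (u k) (T (ch a)) =
        hP (u (k + 1)) (T (ch a) - w) - hP (u k) (T (ch a) - w) := by
      rw [map_sub, map_sub, e]; abel
    have b3 : c⁻¹ * ‖T (ch a) - w‖ ≤ c * c' / 8 := by
      rw [inv_mul_le_iff₀ hc, ← dist_eq_norm]; exact hd.le
    rw [b2] at b1
    linarith [norm_sub_le (hP (u (k + 1)) (T (ch a) - w)) (hP (u k) (T (ch a) - w)),
      (g (k + 1)).g3 (T (ch a) - w), (g k).g3 (T (ch a) - w)]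
  obtain ⟨ξ0, -⟩ := bdd countable_empty
  have : Nonempty Om := ⟨ξ0⟩
  choose! r hr using fun (b : Ordinal.{0}) (h : b < o2) => inj h
  have cls : ∀ d < o2, ∃ e < o2, d < e ∧ ∀ f : X →L[ℝ] ℝ, Set.Countable {m ∈ M | f m ≠ 0} →
      ‖f‖ ≤ 1 → ∃ a < e, ∀ b, a ≤ b → b < e → |f (T (ch b)) - f (y A0)| ≤ c * c' / 4 := by
    intro d hd
    let B : (Om → Ordinal.{0}) → Om → Set X := fun u ξ =>
      hS A0 ∪ ⋃ η ∈ Iio ξ, ⋃ a ∈ {a | a < u η ∧ r (u η) a < ξ}, C (T (ch a))
    let H : (ξ : Om) → ((η : Om) → η < ξ → Ordinal.{0}) → Ordinal.{0} := fun ξ v =>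
      max d (s (hS (B (fun η => if h : η < ξ then v η h else 0) ξ))
        (hP (B (fun η => if h : η < ξ then v η h else 0) ξ))) + 1
    let u : Om → Ordinal.{0} := (wellFounded_lt (α := Om)).fix H
    have u1 : ∀ ξ, u ξ = max d (s (hS (B u ξ)) (hP (B u ξ))) + 1 := fun ξ => by
      have e : B (fun η => if _ : η < ξ then u η else 0) ξ = B u ξ := by
        simp only [B]
        congr 1
        refine iUnion₂_congr fun η hη => ?_
        rw [dif_pos (show η < ξ from hη)]
      rw [← e]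
      exact WellFounded.fix_eq _ _ _
    have u2 : ∀ ξ, (∀ η < ξ, u η < o2) → (B u ξ).Countable := fun ξ h =>
      (hh _ A1).2.g0.union ((Om2 ξ).biUnion fun η hη => Countable.biUnion
        (countable_of_injective_of_countable_image ((hr _ (h η hη)).mono fun a ha => ha.1)
          ((Om2 ξ).mono (by rintro _ ⟨a, ha, rfl⟩; exact ha.2))) fun a _ => C2 _)
    have u3 : ∀ ξ, u ξ < o2 := fun ξ => by
      induction ξ using WellFoundedLT.induction with
      | ind ξ ih => rw [u1]; exact lim2 (max_lt hd (hs _ _ (hh _ (u2 ξ ih)).2).1)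
    have u4 : ∀ ξ, (B u ξ).Countable := fun ξ => u2 ξ fun η _ => u3 η
    refine ⟨⨆ ξ, u ξ, supW u3, lt_of_lt_of_le (u1 ξ0 ▸ (le_max_left _ _).trans_lt (lt_add_one _))
      (Ordinal.le_iSup u ξ0), fun f f1 f2 => ?_⟩
    have k1 : ∀ m : X, ∃ ξ, (∃ a < ⨆ ξ, u ξ, m ∈ C (T (ch a))) → ∀ ζ, ξ < ζ → m ∈ B u ζ := by
      intro m
      by_cases hm : ∃ a < ⨆ ξ, u ξ, m ∈ C (T (ch a))
      · obtain ⟨a, a1, a2⟩ := hm
        obtain ⟨η, hη⟩ := Ordinal.lt_iSup_iff.1 a1
        exact ⟨max η (r (u η) a), fun _ ζ hζ => Or.inr (mem_iUnion₂.2 ⟨η, (le_max_left _ _).trans_lt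
          hζ, mem_iUnion₂.2 ⟨a, ⟨hη, (le_max_right _ _).trans_lt hζ⟩, a2⟩⟩)⟩
      · exact ⟨ξ0, fun h => absurd h hm⟩
    choose k hk using k1
    obtain ⟨ζ, hζ⟩ := bdd (f1.image k)
    have g := hh _ (u4 ζ)
    refine ⟨s (hS (B u ζ)) (hP (B u ζ)), lt_of_lt_of_le (u1 ζ ▸ (le_max_right _ _).trans_lt
      (lt_add_one _)) (Ordinal.le_iSup u ζ), fun b b1 b2 => ?_⟩
    have e : f (T (ch b)) = f.comp (hP (B u ζ)) (T (ch b)) := agree (fun m hm => by
      rw [ContinuousLinearMap.comp_apply]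
      by_cases h : m ∈ hS (B u ζ)
      · rw [g.2.g1 m (C1 _ hm) h]
      · rw [g.2.g2 m (C1 _ hm) h, map_zero]
        by_contra hne
        exact h (g.1 (hk m ⟨b, b2, hm⟩ ζ (hζ _ ⟨m, ⟨C1 _ hm, hne⟩, rfl⟩)))) (C3 _)
    rw [e, ContinuousLinearMap.comp_apply, (hs _ _ g.2).2 b b1 (b2.trans (supW u3)), ← map_sub]
    have := f.le_of_opNorm_le f2 (y (B u ζ) - y A0)
    rw [one_mul] at this
    exact this.trans (A2 _ (u4 ζ) subset_union_left)
  choose! p p1 p2 p3 using cls
  let d : ℕ → Ordinal.{0} := fun k => p^[k] 0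
  have d1 : ∀ k, d (k + 1) = p (d k) := fun k => Function.iterate_succ_apply' _ _ _
  have d2 : ∀ k, d k < o2 := fun k => by
    induction k with
    | zero => exact pos2
    | succ k ih => rw [d1]; exact p1 _ ih
  have d3 : StrictMono d := strictMono_nat_of_lt_succ fun k => d1 k ▸ p2 _ (d2 k)
  obtain ⟨N, hN'⟩ := exists_nat_gt (2 * ‖T‖ / (c * c'))
  let sg : ℕ → ℝ := fun k => if k < N then -1 else 1
  have sg0 : ∀ k, |sg k| ≤ 1 := fun k => by simp only [sg]; split_ifs <;> simp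
  have sg1 : ∀ F : ℕ → ℝ, ∑ k ∈ Finset.range (N + N), sg k * F k =
      ∑ k ∈ Finset.range N, F (N + k) - ∑ k ∈ Finset.range N, F k := by
    intro F
    rw [Finset.sum_range_add, Finset.sum_congr rfl (g := fun k => - F k) fun k hk => by
      simp [sg, Finset.mem_range.1 hk], Finset.sum_neg_distrib]
    simp [sg, neg_add_eq_sub]
  let g : Iic o2 →ᵇ ℝ := ∑ k ∈ Finset.range (N + N), sg k • ch (d (k + 1))
  have g1 : (N : ℝ) ≤ ‖g‖ := by
    refine le_trans (le_of_eq ?_) ((le_abs_self _).trans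
      (g.norm_coe_le_norm ⟨d (N + 1), (d2 _).le⟩))
    rw [BoundedContinuousFunction.sum_apply]
    simp only [BoundedContinuousFunction.smul_apply, _root_.smul_eq_mul, che, d3.le_iff_le]
    rw [sg1 fun k => if N + 1 ≤ k + 1 then 1 else 0, Finset.sum_eq_zero (s := Finset.range N)
      (f := fun k => if N + 1 ≤ k + 1 then (1 : ℝ) else 0) fun k hk =>
        if_neg (by have := Finset.mem_range.1 hk; omega)]
    simp
  obtain ⟨φ, q1, q2, q3⟩ := hN (T g)
  choose a a1 a2 using fun k => d1 k ▸ p3 _ (d2 k) φ q1 q2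
  have b1 := bv (φ.comp T) (fun k => max (a k) (d k)) (fun k => d (k + 1))
    (fun k => (max_lt (a1 k) (d3 (Nat.lt_succ_self k))).le) (fun k => le_max_right _ _) sg sg0
    (N + N)
  have b2 : |∑ k ∈ Finset.range (N + N), sg k * (φ (T (ch (max (a k) (d k)))) - φ (y A0))| ≤
      (N + N) * (c * c' / 4) := by
    refine (Finset.abs_sum_le_sum_abs _ _).trans ((Finset.sum_le_card_nsmul _ _ (c * c' / 4)
      fun k _ => ?_).trans (by simp))
    rw [abs_mul]
    exact (mul_le_of_le_one_left (abs_nonneg _) (sg0 k)).trans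
      (a2 k _ (le_max_left _ _) (max_lt (a1 k) (d3 (Nat.lt_succ_self k))))
  simp only [ContinuousLinearMap.comp_apply, _root_.mul_sub, Finset.sum_sub_distrib] at b1 b2
  rw [sg1 fun _ => φ (y A0), _root_.sub_self, _root_.sub_zero] at b2
  have b3 : φ (T g) = ∑ k ∈ Finset.range (N + N), sg k * φ (T (ch (d (k + 1)))) := by
    simp [g, map_sum]
  rw [← b3] at b1
  have b4 : ‖φ.comp T‖ ≤ ‖T‖ :=
    (φ.opNorm_comp_le T).trans (mul_le_of_le_one_left (norm_nonneg _) q2)
  have b5 := abs_sub_abs_le_abs_sub (φ (T g))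
    (∑ k ∈ Finset.range (N + N), sg k * φ (T (ch (max (a k) (d k)))))
  rw [div_lt_iff₀ (by positivity)] at hN'
  have b6 := mul_le_mul_of_nonneg_left ((mul_le_mul_of_nonneg_left g1 hc'.le).trans (hT g)) hc.le
  nlinarith

end Pool.Agent.H.MP_28dc43
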